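import Pool.Agent.W232.VA.L

/-!
# Job AD CNVQ of helper273, first part: the truncated counting function of a coprime integral vector
-/

set_option autoImplicit false

namespace Pool.Agent.Q225.AD

open NumberField IsDedekindDomain Finset Pool.Agent.H691R3 Height Pool.Agent.W232.VA
open Rat.HeightOneSpectrum

/-- the prime number of a prime of `𝓞 ℚ` -/
noncomputable def pr (v : HeightOneSpectrum (𝓞 ℚ)) : ℕ := (primesEquiv v : ℕ)

lemma pr_eq (v : HeightOneSpectrum (𝓞 ℚ)) : pr v = natGenerator v := rfl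

lemma pr_prime (v : HeightOneSpectrum (𝓞 ℚ)) : (pr v).Prime := (primesEquiv v).2

lemma mem_iff (v : HeightOneSpectrum (𝓞 ℚ)) (x : 𝓞 ℚ) :
    x ∈ v.asIdeal ↔ (pr v : ℤ) ∣ Rat.IsIntegralClosure.intEquiv (𝓞 ℚ) x := by
  rw [← Ideal.mem_span_singleton, pr_eq, span_natGenerator]
  exact (Ideal.apply_mem_of_equiv_iff (f := Rat.IsIntegralClosure.intEquiv (𝓞 ℚ))).symm

lemma intCast_mem_iff (v : HeightOneSpectrum (𝓞 ℚ)) (m : ℤ) :
    (m : 𝓞 ℚ) ∈ v.asIdeal ↔ pr v ∣ m.natAbs := by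
  rw [mem_iff, map_intCast, Int.cast_id, Int.natCast_dvd]

lemma asIdeal_eq (v : HeightOneSpectrum (𝓞 ℚ)) : v.asIdeal = Ideal.span {((pr v : ℕ) : 𝓞 ℚ)} := by
  ext x
  rw [mem_iff, Ideal.mem_span_singleton]
  constructor
  · rintro ⟨k, hk⟩
    refine ⟨(k : 𝓞 ℚ), (Rat.IsIntegralClosure.intEquiv (𝓞 ℚ)).injective ?_⟩
    rw [hk, map_mul, map_natCast, map_intCast, Int.cast_id]
  · rintro ⟨k, hk⟩
    rw [hk, map_mul, map_natCast]
    exact dvd_mul_right _ _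

lemma Nv_eq (v : HeightOneSpectrum (𝓞 ℚ)) : Nv v = (pr v : ℝ) := by
  unfold Nv
  have h : Ideal.absNorm v.asIdeal = pr v := by
    rw [asIdeal_eq, Ideal.absNorm_span_natCast, RingOfIntegers.rank, Module.finrank_self, pow_one]
  rw [h]

lemma fv_le_one (v : HeightOneSpectrum (𝓞 ℚ)) (m : ℤ) : fv v (m : ℚ) ≤ 1 :=
  IsNonarchimedean.apply_intCast_le_one (f := FinitePlace.mk v) (FinitePlace.add_le _)

lemma fv_lt_one_iff (v : HeightOneSpectrum (𝓞 ℚ)) (m : ℤ) :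
    fv v (m : ℚ) < 1 ↔ pr v ∣ m.natAbs := by
  rw [← intCast_mem_iff, ← FinitePlace.norm_lt_one_iff_mem ℚ v]
  have h : algebraMap (𝓞 ℚ) ℚ ((m : ℤ) : 𝓞 ℚ) = (m : ℚ) := map_intCast (algebraMap (𝓞 ℚ) ℚ) m
  rw [h]
  exact Iff.rfl

lemma lam_int (v : HeightOneSpectrum (𝓞 ℚ)) {n : ℕ} (a x : Fin (n + 1) → ℤ)
    (ha : Finset.univ.gcd a = 1) (hx : Finset.univ.gcd x = 1) (hl : ∑ j, a j * x j ≠ 0) :
    0 < Pool.Agent.W232.VA.lam (fv v) (fun j => (a j : ℚ)) (fun j => (x j : ℚ)) ↔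
      pr v ∣ (∑ j, a j * x j).natAbs := by
  unfold Pool.Agent.W232.VA.lam
  have h1 : (⨆ j, fv v ((a j : ℤ) : ℚ)) = 1 :=
    Rat.iSup_finitePlace_apply_eq_one_of_gcd_eq_one (FinitePlace.mk v) ha
  have h2 : (⨆ j, fv v ((x j : ℤ) : ℚ)) = 1 :=
    Rat.iSup_finitePlace_apply_eq_one_of_gcd_eq_one (FinitePlace.mk v) hx
  have h3 : lin (fun j => (a j : ℚ)) (fun j => (x j : ℚ)) = ((∑ j, a j * x j : ℤ) : ℚ) := by
    unfold lin
    push_cast
    rfl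
  rw [h1, h2, h3, ← fv_lt_one_iff, mul_one, Real.log_div one_ne_zero, Real.log_one, zero_sub,
    neg_pos]
  · have h4 : (0 : ℝ) < fv v ((∑ j, a j * x j : ℤ) : ℚ) :=
      (fv v).pos (by exact_mod_cast hl)
    exact Real.log_neg_iff h4
  · exact ((fv v).pos (by exact_mod_cast hl)).ne'

open Classical in
theorem N1_int {n : ℕ} (a x : Fin (n + 1) → ℤ)
    (ha : Finset.univ.gcd a = 1) (hx : Finset.univ.gcd x = 1) (hl : ∑ j, a j * x j ≠ 0) :
    N1 (∅ : Finset (HeightOneSpectrum (𝓞 ℚ))) (fun _ : Fin 1 => fun j => (a j : ℚ))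
      (fun j => (x j : ℚ)) =
      Real.log ((∏ p ∈ (∑ j, a j * x j).natAbs.primeFactors, p : ℕ) : ℝ) := by
  unfold N1
  have h1 : ∀ v : HeightOneSpectrum (𝓞 ℚ), (v ∉ (∅ : Finset (HeightOneSpectrum (𝓞 ℚ))) ∧
      ∃ _ : Fin 1, 0 < Pool.Agent.W232.VA.lam (fv v) (fun j => (a j : ℚ)) (fun j => (x j : ℚ))) ↔
      v ∈ {v | pr v ∈ (∑ j, a j * x j).natAbs.primeFactors} := by
    intro v
    have h0 : (∑ j, a j * x j).natAbs ≠ 0 := Int.natAbs_ne_zero.2 hl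
    rw [Set.mem_ofPred_eq, Nat.mem_primeFactors, ← lam_int v a x ha hx hl]
    constructor
    · rintro ⟨_, _, h⟩
      exact ⟨pr_prime v, h, h0⟩
    · rintro ⟨_, h, _⟩
      exact ⟨Finset.notMem_empty _, 0, h⟩
  have h2 : ∀ v : HeightOneSpectrum (𝓞 ℚ), (if v ∉ (∅ : Finset (HeightOneSpectrum (𝓞 ℚ))) ∧
      ∃ _ : Fin 1, 0 < Pool.Agent.W232.VA.lam (fv v) (fun j => (a j : ℚ)) (fun j => (x j : ℚ)) then
        Real.log (Nv v) else 0) =
      ∑ᶠ (_ : v ∈ {v | pr v ∈ (∑ j, a j * x j).natAbs.primeFactors}), Real.log (pr v : ℝ) := by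
    intro v
    rw [finsum_eq_if, Nv_eq]
    by_cases h : v ∈ {v | pr v ∈ (∑ j, a j * x j).natAbs.primeFactors}
    · rw [if_pos h, if_pos ((h1 v).2 h)]
    · rw [if_neg h, if_neg fun h' => h ((h1 v).1 h')]
  rw [finsum_congr h2]
  have hb : Set.BijOn pr {v | pr v ∈ (∑ j, a j * x j).natAbs.primeFactors}
      ((∑ j, a j * x j).natAbs.primeFactors : Set ℕ) := by
    refine ⟨fun v hv => hv, fun v _ w _ h => ?_, fun p hp => ?_⟩
    · exact primesEquiv.injective (Subtype.ext h)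
    · have hpp : p.Prime := Nat.prime_of_mem_primeFactors hp
      have h3 : pr (primesEquiv.symm (⟨p, hpp⟩ : Nat.Primes)) = p :=
        congrArg Subtype.val (primesEquiv.apply_symm_apply (⟨p, hpp⟩ : Nat.Primes))
      refine ⟨primesEquiv.symm (⟨p, hpp⟩ : Nat.Primes), ?_, h3⟩
      rw [Set.mem_ofPred_eq, h3]
      exact hp
  rw [finsum_mem_eq_of_bijOn pr hb (g := fun p : ℕ => Real.log (p : ℝ)) (fun v _ => rfl),
    finsum_mem_coe_finset]
  push_cast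
  rw [Real.log_prod]
  intro p hp
  exact_mod_cast (Nat.prime_of_mem_primeFactors hp).ne_zero

lemma N1_scale {n : ℕ} (a x : Fin (n + 1) → ℚ) {t : ℚ} (ht : t ≠ 0) :
    N1 (∅ : Finset (HeightOneSpectrum (𝓞 ℚ))) (fun _ : Fin 1 => a) (t • x) =
      N1 (∅ : Finset (HeightOneSpectrum (𝓞 ℚ))) (fun _ : Fin 1 => a) x := by
  unfold N1
  refine finsum_congr fun v => ?_
  have h : Pool.Agent.W232.VA.lam (fv v) a (t • x) = Pool.Agent.W232.VA.lam (fv v) a x :=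
    lam_smul_right (fv v) ht a x
  beta_reduce
  rw [h]

end Pool.Agent.Q225.AD
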