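import Pool.Agent.Q273.AD.StmQ
import Pool.Agent.Q225.AD.Cnvq0

/-!
# Job AD CNVQ of helper273: over `ℚ` the losses are the logarithms of the radicals
-/

set_option autoImplicit false

namespace Pool.Agent.Q225.AD

open NumberField IsDedekindDomain Finset Pool.Agent.H691R3 Height Pool.Agent.W232.VA
open Q273.MV Q273.AD

/-- the integral coprime vector of a rational number -/
def iv (r : ℚ) : Fin (1 + 1) → ℤ := Fin.cons (r.den : ℤ) fun _ => r.num

lemma iv_gcd (r : ℚ) : Finset.univ.gcd (iv r) = 1 := by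
  have h : (Finset.univ : Finset (Fin 2)).gcd ![(r.den : ℤ), r.num] = 1 := by
    rw [Finset.univ_fin2]
    have h1 : Int.gcd (r.den : ℤ) r.num = 1 := by
      rw [Int.gcd_comm]
      exact Int.isCoprime_iff_gcd_eq_one.mp (Rat.isCoprime_num_den r)
    have h2 : Int.gcd (r.den : ℤ) (normalize r.num) = 1 := by
      rw [← Int.abs_eq_normalize, Int.gcd_def, Int.natAbs_abs, ← Int.gcd_def]
      exact h1
    simpa [← Int.coe_gcd] using h2
  have e : iv r = ![(r.den : ℤ), r.num] := by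
    funext j
    fin_cases j <;> rfl
  rw [e]
  exact h

lemma vec_eq (r : ℚ) : vec r = (r.den : ℚ)⁻¹ • (fun j => ((iv r j : ℤ) : ℚ)) := by
  have hd : (r.den : ℚ) ≠ 0 := by exact_mod_cast r.den_nz
  funext j
  rw [Pi.smul_apply, smul_eq_mul]
  refine Fin.cases ?_ (fun i => ?_) j
  · change (1 : ℚ) = (r.den : ℚ)⁻¹ * (((r.den : ℕ) : ℤ) : ℚ)
    rw [Int.cast_natCast, inv_mul_cancel₀ hd]
  · change r = (r.den : ℚ)⁻¹ * (r.num : ℚ)
    rw [← div_eq_inv_mul, Rat.num_div_den]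

lemma hh_int (r : ℚ) : hh r = Real.log ((max r.num.natAbs r.den : ℕ) : ℝ) := by
  have hd : (r.den : ℚ)⁻¹ ≠ 0 := inv_ne_zero (by exact_mod_cast r.den_nz)
  unfold hh
  rw [vec_eq, mulHeight_smul_eq_mulHeight _ hd]
  have h := Rat.mulHeight_eq_max_abs_of_gcd_eq_one (iv_gcd r)
  have e : mulHeight (fun j => ((iv r j : ℤ) : ℚ)) = ((⨆ i, |iv r i| : ℤ) : ℝ) := h
  rw [e]
  congr 1
  rw [← Int.cast_natCast, Int.cast_inj, Nat.cast_max, Int.natCast_natAbs]
  apply le_antisymm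
  · refine ciSup_le fun j => ?_
    refine Fin.cases ?_ (fun i => ?_) j
    · change |(r.den : ℤ)| ≤ _
      rw [Nat.abs_cast]
      exact le_max_right _ _
    · exact le_max_left _ _
  · refine max_le ?_ ?_
    · exact Finite.le_ciSup_of_le (f := fun i => |iv r i|) 1 le_rfl
    · refine Finite.le_ciSup_of_le (f := fun i => |iv r i|) 0 ?_
      change _ ≤ |(r.den : ℤ)|
      rw [Nat.abs_cast]

lemma loss_int (r : ℚ) (α : ℚ × ℚ) (hα : α ≠ 0) (hx : r * α.2 - 1 * α.1 ≠ 0)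
    (a : Fin (1 + 1) → ℤ) (ha : frm α = fun j => ((a j : ℤ) : ℚ)) (hg : Finset.univ.gcd a = 1)
    (m : ℤ) (hm : m ≠ 0) (hs : ∑ j, a j * iv r j = m) :
    hh r - sI ∅ α r = Real.log (Rd m.natAbs) := by
  classical
  have hd : (r.den : ℚ)⁻¹ ≠ 0 := inv_ne_zero (by exact_mod_cast r.den_nz)
  have h1 : sI ∅ α r = hh r - N1 Set.finite_empty.toFinset (fun _ : Fin 1 => frm α) (vec r) := by
    unfold sI
    rw [counting_single Set.finite_empty hα hx]
  have h2 : (Set.finite_empty (α := HeightOneSpectrum (𝓞 ℚ))).toFinset = ∅ := by simp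
  rw [h1, h2, sub_sub_cancel, vec_eq, N1_scale _ _ hd, ha, N1_int a (iv r) hg (iv_gcd r)
    (by rw [hs]; exact hm), hs]
  rfl

theorem cnvq : S_CNVQ := by
  intro r h0 h1
  have hnum : r.num ≠ 0 := Rat.num_ne_zero.2 h0
  refine ⟨hh_int r, ?_, ?_, ?_⟩
  · refine loss_int r (al ℚ 0) ?_ ?_ (Fin.cons 0 fun _ => 1) ?_ ?_ r.num hnum ?_
    · intro h
      have h2 : ((0 : ℚ), (1 : ℚ)) = 0 := h
      simp at h2
    · change r * 1 - 1 * 0 ≠ 0
      simpa using h0
    · funext j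
      refine Fin.cases ?_ (fun i => ?_) j
      · change -(0 : ℚ) = ((0 : ℤ) : ℚ)
        simp
      · change (1 : ℚ) = ((1 : ℤ) : ℚ)
        simp
    · decide
    · rw [Fin.sum_univ_succ, Fin.sum_univ_one]
      change 0 * (r.den : ℤ) + 1 * r.num = r.num
      ring
  · have hne : r.num - r.den ≠ 0 := by
      intro h
      apply h1
      rw [← Rat.num_div_den r, show r.num = (r.den : ℤ) by linarith, Int.cast_natCast, div_self]
      exact_mod_cast r.den_nz
    refine loss_int r (al ℚ 1) ?_ ?_ (Fin.cons (-1) fun _ => 1) ?_ ?_ (r.num - r.den) hne ?_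
    · intro h
      have h2 : ((1 : ℚ), (1 : ℚ)) = 0 := h
      simp at h2
    · change r * 1 - 1 * 1 ≠ 0
      rw [mul_one, mul_one]
      exact sub_ne_zero.2 h1
    · funext j
      refine Fin.cases ?_ (fun i => ?_) j
      · change -(1 : ℚ) = ((-1 : ℤ) : ℚ)
        simp
      · change (1 : ℚ) = ((1 : ℤ) : ℚ)
        simp
    · decide
    · rw [Fin.sum_univ_succ, Fin.sum_univ_one]
      change -1 * (r.den : ℤ) + 1 * r.num = r.num - r.den
      ring
  · have hne : -(r.den : ℤ) ≠ 0 := neg_ne_zero.2 (by exact_mod_cast r.den_nz)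
    have h := loss_int r (al ℚ 2) ?_ ?_ (Fin.cons (-1) fun _ => 0) ?_ ?_ (-(r.den : ℤ)) hne ?_
    · rw [Int.natAbs_neg, Int.natAbs_natCast] at h
      exact h
    · intro h
      have h2 : ((1 : ℚ), (0 : ℚ)) = 0 := h
      simp at h2
    · change r * 0 - 1 * 1 ≠ 0
      norm_num
    · funext j
      refine Fin.cases ?_ (fun i => ?_) j
      · change -(1 : ℚ) = ((-1 : ℤ) : ℚ)
        simp
      · change (0 : ℚ) = ((0 : ℤ) : ℚ)
        simp
    · decide
    · rw [Fin.sum_univ_succ, Fin.sum_univ_one]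
      change -1 * (r.den : ℤ) + 0 * r.num = -(r.den : ℤ)
      ring

end Pool.Agent.Q225.AD
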